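import Mathlib
import Pool.Agent.TH292.LS.Tor4
set_option autoImplicit false

/-! MP_3d31f5_an: local smoothing for the wave equation on the torus `𝕋^n = ℝ^n/ℤ^n` with a flat
metric, on average over the flat metrics. A flat metric is given by an orthonormal basis
`b_1, …, b_n` of `ℝ^n` and positive numbers `a_1, …, a_n`: its Laplacian is `∑_l a_l ∂_{b_l}²`.
For `2 ≤ p ≤ 4` every `s > 1/2 - 1/p` derivatives suffice on average over `a ∈ [α, β]^n`,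
uniformly in the basis, hence for almost every `a` once the data are given. -/

namespace Pool.Agent.Results.MP_3d31f5_an.AlmostEveryFlatTorus

open MeasureTheory Set
open scoped ENNReal

/-- `ℝ^n` with the Euclidean norm -/
abbrev V (n : ℕ) : Type := EuclideanSpace ℝ (Fin n)

/-- the character `x ↦ exp (2 π i k·x)` of the torus `𝕋^n = ℝ^n/ℤ^n` -/
noncomputable def char {n : ℕ} (k : Fin n → ℤ) (x : Fin n → ℝ) : ℂ :=
  Complex.exp (((2 * Real.pi * ∑ j, (k j : ℝ) * x j : ℝ) : ℂ) * Complex.I)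

/-- the trigonometric polynomial with the coefficients `A k`, `k ∈ S` -/
noncomputable def poly {n : ℕ} (S : Finset (Fin n → ℤ)) (A : (Fin n → ℤ) → ℂ)
    (x : Fin n → ℝ) : ℂ :=
  ∑ k ∈ S, A k * char k x

/-- the length of the frequency `k` for the flat metric with the Laplacian
`∑_l a_l ∂_{b_l}²` -/
noncomputable def len {n : ℕ} (b : OrthonormalBasis (Fin n) ℝ (V n)) (a : Fin n → ℝ)
    (k : Fin n → ℤ) : ℝ :=
  Real.sqrt (∑ l, a l * (∑ j, b l j * (k j : ℝ)) ^ 2)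

/-- the solution at time `t` of the wave equation on `𝕋^n` with this metric and with the data
`u(0) = poly S A₀`, `∂_t u(0) = poly S A₁` -/
noncomputable def wave {n : ℕ} (b : OrthonormalBasis (Fin n) ℝ (V n)) (a : Fin n → ℝ)
    (S : Finset (Fin n → ℤ)) (A₀ A₁ : (Fin n → ℤ) → ℂ) (t : ℝ) (x : Fin n → ℝ) : ℂ :=
  ∑ k ∈ S, (((Real.cos (2 * Real.pi * t * len b a k) : ℝ) : ℂ) * A₀ k +
    ((t * Real.sinc (2 * Real.pi * t * len b a k) : ℝ) : ℂ) * A₁ k) * char k x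

/-- `f` is differentiable everywhere and its derivative has the derivative `v` at `r` -/
def SecondDeriv (f : ℝ → ℂ) (v : ℂ) (r : ℝ) : Prop :=
  ∃ f' : ℝ → ℂ, (∀ y, HasDerivAt f (f' y) y) ∧ HasDerivAt f' v r

/-- pointwise, `u(0) = u₀`, `∂_t u(0) = u₁` and `∂_t² u = ∑_l a_l ∂_{b_l}² u` -/
def Solves {n : ℕ} (b : OrthonormalBasis (Fin n) ℝ (V n)) (a : Fin n → ℝ)
    (u₀ u₁ : (Fin n → ℝ) → ℂ) (u : ℝ → (Fin n → ℝ) → ℂ) : Prop :=
  ∀ x : Fin n → ℝ, u 0 x = u₀ x ∧ HasDerivAt (fun t => u t x) (u₁ x) 0 ∧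
    ∀ t : ℝ, ∃ D : Fin n → ℂ,
      (∀ l, SecondDeriv (fun r => u t (fun j => x j + r * b l j)) (D l) 0) ∧
      SecondDeriv (fun t => u t x) (∑ l, (a l : ℂ) * D l) t

/-- `∫_1^2 ‖u(t)‖_p^p dt` for the solution `u` on `𝕋^n` -/
noncomputable def smoothing {n : ℕ} (p : ℝ) (b : OrthonormalBasis (Fin n) ℝ (V n))
    (a : Fin n → ℝ) (S : Finset (Fin n → ℤ)) (A₀ A₁ : (Fin n → ℤ) → ℂ) : ℝ≥0∞ :=
  ∫⁻ t in Icc (1 : ℝ) 2, ∫⁻ x in (univ.pi fun _ : Fin n => Ioc (0 : ℝ) 1),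
    ‖wave b a S A₀ A₁ t x‖ₑ ^ p

/-- `‖(I - Δ)^(r/2) poly S A‖_p^p` on `𝕋^n`, for the Laplacian `Δ` of the standard metric -/
noncomputable def sobolev {n : ℕ} (p r : ℝ) (S : Finset (Fin n → ℤ)) (A : (Fin n → ℤ) → ℂ) :
    ℝ≥0∞ :=
  ∫⁻ x in (univ.pi fun _ : Fin n => Ioc (0 : ℝ) 1),
    ‖poly S (fun k => (((1 + 4 * Real.pi ^ 2 * ∑ j, (k j : ℝ) ^ 2) ^ (r / 2) : ℝ) : ℂ) * A k) x‖ₑ ^ p

theorem result :
    (∀ (n : ℕ) (b : OrthonormalBasis (Fin n) ℝ (V n)) (a : Fin n → ℝ) (S : Finset (Fin n → ℤ))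
      (A₀ A₁ : (Fin n → ℤ) → ℂ), (∀ l, 0 < a l) →
      Solves b a (poly S A₀) (poly S A₁) (wave b a S A₀ A₁)) ∧
    ∀ (n : ℕ) (p s : ℝ), 1 ≤ n → 2 ≤ p → p ≤ 4 → 1 / 2 - 1 / p < s →
      (∀ α β : ℝ, 0 < α → α ≤ β → ∃ C : ℝ, 0 < C ∧
        ∀ (b : OrthonormalBasis (Fin n) ℝ (V n)) (S : Finset (Fin n → ℤ))
          (A₀ A₁ : (Fin n → ℤ) → ℂ),
          ∫⁻ a in (univ.pi fun _ : Fin n => Icc α β), smoothing p b a S A₀ A₁ ≤
            ENNReal.ofReal C * (sobolev p s S A₀ + sobolev p (s - 1) S A₁)) ∧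
      (∀ (b : OrthonormalBasis (Fin n) ℝ (V n)) (S : ℕ → Finset (Fin n → ℤ))
        (A₀ A₁ : ℕ → (Fin n → ℤ) → ℂ),
        ∑' i, (sobolev p s (S i) (A₀ i) ^ (1 / p) + sobolev p (s - 1) (S i) (A₁ i) ^ (1 / p)) < ⊤ →
        ∀ᵐ a : Fin n → ℝ, (∀ l, 0 < a l) →
          ∑' i, smoothing p b a (S i) (A₀ i) (A₁ i) ^ (1 / p) < ⊤) := by
  have hlen : ∀ {n : ℕ} (b : OrthonormalBasis (Fin n) ℝ (V n)) (a : Fin n → ℝ)
      (k : Fin n → ℤ), len b a k = Pool.Agent.TH292.LS.frq b.repr a k := by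
    intro n b a k
    unfold len Pool.Agent.TH292.LS.frq
    simp only [Pool.Agent.TH292.LS.repr_kap]
  have hwave : ∀ {n : ℕ} (b : OrthonormalBasis (Fin n) ℝ (V n)) (a : Fin n → ℝ)
      (S : Finset (Fin n → ℤ)) (A₀ A₁ : (Fin n → ℤ) → ℂ) (t : ℝ) (x : Fin n → ℝ),
      wave b a S A₀ A₁ t x = Pool.Agent.TH292.LS.wvT b.repr a S A₀ A₁ t x := by
    intro n b a S A₀ A₁ t x
    unfold wave Pool.Agent.TH292.LS.wvT
    simp only [hlen]
    rfl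
  have hsob : ∀ {n : ℕ} (p r : ℝ) (S : Finset (Fin n → ℤ)) (A : (Fin n → ℤ) → ℂ),
      sobolev p r S A = ∫⁻ x in Pool.Agent.TH292.LS.cub n,
        ‖∑ k ∈ S, ((Pool.Agent.TH292.LS.wt r k : ℝ) : ℂ) * A k *
          Pool.Agent.TH292.LS.chr k x‖ₑ ^ p := by
    intro n p r S A
    have h1 : ∀ k : Fin n → ℤ, Pool.Agent.TH292.LS.wt r k =
        (1 + 4 * Real.pi ^ 2 * ∑ j, (k j : ℝ) ^ 2) ^ (r / 2) := by
      intro k
      unfold Pool.Agent.TH292.LS.wt Pool.Agent.TH292.LS.kap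
      rw [EuclideanSpace.real_norm_sq_eq]
    simp only [h1]
    rfl
  have hsm : ∀ {n : ℕ} (p : ℝ) (b : OrthonormalBasis (Fin n) ℝ (V n)) (a : Fin n → ℝ)
      (S : Finset (Fin n → ℤ)) (A₀ A₁ : (Fin n → ℤ) → ℂ),
      smoothing p b a S A₀ A₁ = ∫⁻ t in Icc (1 : ℝ) 2, ∫⁻ x in Pool.Agent.TH292.LS.cub n,
        ‖Pool.Agent.TH292.LS.wvT b.repr a S A₀ A₁ t x‖ₑ ^ p := by
    intro n p b a S A₀ A₁
    unfold smoothing
    simp only [hwave]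
    rfl
  refine ⟨fun n b a S A₀ A₁ ha x => ?_, fun n p s hn hp hp4 hs =>
    ⟨fun α β hα hαβ => ?_, fun b S A₀ A₁ hu => ?_⟩⟩
  · have h1 := Pool.Agent.TH292.LS.tor_solves b (fun j => (ha j).le) S A₀ A₁ x
    have h2 : wave b a S A₀ A₁ = Pool.Agent.TH292.LS.wvT b.repr a S A₀ A₁ :=
      funext fun t => funext fun x => hwave b a S A₀ A₁ t x
    rw [h2]
    exact h1
  · obtain ⟨C, hC, h⟩ := Pool.Agent.TH292.LS.tor_one n hn hp hp4 hs hα hαβ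
    refine ⟨C, hC, fun b S A₀ A₁ => ?_⟩
    simp only [hsm, hsob]
    exact h b.repr S A₀ A₁
  · simp only [hsm, hsob] at hu ⊢
    exact Pool.Agent.TH292.LS.tor_two n hn hp hp4 hs b.repr S A₀ A₁ hu

end Pool.Agent.Results.MP_3d31f5_an.AlmostEveryFlatTorus
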